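import Mathlib

namespace Pool.Agent.Results.MP_a45b15_gt.Neg

open Set Filter Topology

/-- A countable family of closed sets. -/
def Adm {X : Type*} [TopologicalSpace X] (𝓕 : Set (Set X)) : Prop :=
  𝓕.Countable ∧ ∀ F ∈ 𝓕, IsClosed F

/-- For each countable family `𝓕` of closed sets, `r 𝓕` is a continuous retraction mapping each
member of `𝓕` into itself and `N 𝓕` is a countable external network for its range. -/
def Assign {X : Type*} [TopologicalSpace X] (r : Set (Set X) → X → X)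
    (N : Set (Set X) → Set (Set X)) : Prop :=
  ∀ 𝓕, Adm 𝓕 → Continuous (r 𝓕) ∧ (∀ x, r 𝓕 (r 𝓕 x) = r 𝓕 x) ∧ (N 𝓕).Countable ∧
    (∀ a ∈ range (r 𝓕), ∀ U, IsOpen U → a ∈ U → ∃ S ∈ N 𝓕, a ∈ S ∧ S ⊆ U) ∧
    ∀ F ∈ 𝓕, MapsTo (r 𝓕) F F

/-- Monotonically Sokolov, as in the problem file. -/
def MonSokolov (X : Type*) [TopologicalSpace X] : Prop :=
  ∃ r N, Assign (X := X) r N ∧ ∀ 𝓕 𝒢, Adm 𝓕 → Adm 𝒢 → 𝓕 ⊆ 𝒢 → N 𝓕 ⊆ N 𝒢

/-- The same with `N` also commuting with unions of increasing sequences. -/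
def OmegaMonSokolov (X : Type*) [TopologicalSpace X] : Prop :=
  ∃ r N, Assign (X := X) r N ∧ (∀ 𝓕 𝒢, Adm 𝓕 → Adm 𝒢 → 𝓕 ⊆ 𝒢 → N 𝓕 ⊆ N 𝒢) ∧
    ∀ 𝓕 : ℕ → Set (Set X), (∀ n, Adm (𝓕 n)) → Monotone 𝓕 → N (⋃ n, 𝓕 n) = ⋃ n, N (𝓕 n)

def G : Type := ℕ → Bool
instance : TopologicalSpace G := ⊥
instance : DiscreteTopology G := ⟨rfl⟩

abbrev I : Type := ℕ × Finset ℕ
def J : Type := Option I
instance : TopologicalSpace J := ⊥
instance : DiscreteTopology J := ⟨rfl⟩
instance : Countable J := inferInstanceAs (Countable (Option I))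

lemma fin_of {C : Set (OnePoint G)} (hC : IsClosed C) (h : OnePoint.infty ∉ C) :
    {γ : G | (γ : OnePoint G) ∈ C}.Finite := by
  have := (OnePoint.isOpen_iff_of_mem (s := Cᶜ) h).1 hC.isOpen_compl
  exact this.2.finite_of_discrete.subset fun γ hγ h => h hγ

lemma clopen_pt (γ : G) : IsClopen ({(γ : OnePoint G)} : Set (OnePoint G)) :=
  ⟨isClosed_singleton, by
    simpa using OnePoint.isOpenEmbedding_coe.isOpenMap {γ} (isOpen_discrete _)⟩

open Classical in
noncomputable def rr (C : Set G) (t : OnePoint G) : OnePoint G :=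
  if t ∈ ((↑) : G → OnePoint G) '' C then t else OnePoint.infty

lemma rr_cont (C : Set G) : Continuous (rr C) := by
  refine continuous_def.2 fun U hU => ?_
  by_cases h : OnePoint.infty ∈ U
  · have h1 : OnePoint.infty ∈ rr C ⁻¹' U := by simp [rr, h]
    refine (OnePoint.isOpen_iff_of_mem h1).2 ⟨isClosed_discrete _, Finite.isCompact ?_⟩
    refine (fin_of hU.isClosed_compl (by simpa using h)).subset fun γ hγ hU' => hγ ?_
    simp only [mem_preimage, rr]
    split_ifs <;> assumption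
  · have h1 : OnePoint.infty ∉ rr C ⁻¹' U := by simp [rr, h]
    exact (OnePoint.isOpen_iff_of_notMem h1).2 (isOpen_discrete _)

def CC (𝓕 : Set (Set (J × OnePoint G))) : Set G :=
  ⋃ F ∈ 𝓕, ⋃ j : J, {γ | (j, OnePoint.infty) ∉ F ∧ (j, (γ : OnePoint G)) ∈ F}

def NN (𝓕 : Set (Set (J × OnePoint G))) : Set (Set (J × OnePoint G)) :=
  singleton '' (univ ×ˢ insert OnePoint.infty (((↑) : G → OnePoint G) '' CC 𝓕))

lemma sok : OmegaMonSokolov (J × OnePoint G) := by
  have mono : ∀ 𝓕 𝒢, 𝓕 ⊆ 𝒢 → NN 𝓕 ⊆ NN 𝒢 := fun 𝓕 𝒢 h =>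
    image_mono (prod_mono subset_rfl (insert_subset_insert
      (image_mono (biUnion_subset_biUnion_left h))))
  refine ⟨fun 𝓕 => Prod.map id (rr (CC 𝓕)), NN, fun 𝓕 h => ⟨continuous_id.prodMap (rr_cont _),
    ?_, ?_, ?_, ?_⟩, fun 𝓕 𝒢 _ _ h => mono _ _ h, fun 𝓕 _ _ => ?_⟩
  · rintro ⟨j, t⟩
    refine Prod.ext rfl ?_
    show rr _ (rr _ t) = rr _ t
    by_cases h1 : t ∈ ((↑) : G → OnePoint G) '' CC 𝓕
    · have : rr (CC 𝓕) t = t := if_pos h1
      rw [this, this]
    · have : rr (CC 𝓕) t = OnePoint.infty := if_neg h1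
      rw [this]; exact ite_self _
  · refine (countable_univ.prod (Countable.insert _ (Countable.image ?_ _))).image _
    refine h.1.biUnion fun F hF => countable_iUnion fun j => Finite.countable ?_
    by_cases h0 : (j, OnePoint.infty) ∈ F
    · simp [h0]
    · exact (fin_of ((h.2 F hF).preimage (Continuous.prodMk_right j)) h0).subset fun γ hγ => hγ.2
  · rintro _ ⟨⟨j, t⟩, rfl⟩ U - hU
    refine ⟨_, ⟨_, ⟨trivial, ?_⟩, rfl⟩, rfl, singleton_subset_iff.2 hU⟩
    simp only [Prod.map, rr]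
    split_ifs with h1
    · exact Or.inr h1
    · exact Or.inl rfl
  · rintro F hF ⟨j, t⟩ ht
    simp only [Prod.map, id, rr]
    split_ifs with h1
    · exact ht
    · by_contra h2
      induction t using OnePoint.rec with
      | infty => exact h2 ht
      | coe γ => exact h1 ⟨γ, mem_iUnion₂.2 ⟨F, hF, mem_iUnion.2 ⟨j, h2, ht⟩⟩, rfl⟩
  · refine Subset.antisymm ?_ (iUnion_subset fun n => mono _ _ (subset_iUnion _ n))
    rintro _ ⟨⟨j, t⟩, ⟨-, rfl | ⟨γ, hγ, rfl⟩⟩, rfl⟩
    · exact mem_iUnion.2 ⟨0, _, ⟨trivial, Or.inl rfl⟩, rfl⟩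
    · obtain ⟨F, hF, h1⟩ := mem_iUnion₂.1 hγ
      obtain ⟨n, hn⟩ := mem_iUnion.1 hF
      exact mem_iUnion.2 ⟨n, _, ⟨trivial, Or.inr ⟨γ, mem_iUnion₂.2 ⟨F, hn, h1⟩, rfl⟩⟩, rfl⟩

open Classical in
noncomputable def b (γ : G) (n : ℕ) : I := (n, (Finset.range n).filter fun i => γ i = true)

lemma ad {γ δ : G} (h : γ ≠ δ) : ∀ᶠ n in atTop, b γ n ∉ range (b δ) := by
  classical
  obtain ⟨i, hi⟩ := Function.ne_iff.1 h
  filter_upwards [eventually_gt_atTop i] with n hn
  rintro ⟨m, hm⟩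
  obtain ⟨rfl, h2⟩ := Prod.ext_iff.1 hm
  have := Finset.ext_iff.1 h2 i
  simp only [b, Finset.mem_filter, Finset.mem_range] at this hn
  exact hi (Bool.eq_iff_iff.2 (by tauto))

def Y : Type := Option (I × OnePoint G)

def oo : Y := none
def pt (i : I) (t : OnePoint G) : Y := some (i, t)
def jj (i : I) : J := some i

lemma pt_inj {i j t s} (h : pt i t = pt j s) : i = j ∧ t = s := Prod.ext_iff.1 (Option.some.inj h)

def box (P : Set I) (Q : Set (OnePoint G)) : Set Y := some '' (P ×ˢ Q)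

def test : I ⊕ (I × G) ⊕ G → Set Y
  | .inl i => box {i} univ
  | .inr (.inl q) => box {q.1} {(q.2 : OnePoint G)}
  | .inr (.inr γ) => box (range (b γ)) {(γ : OnePoint G)}ᶜ

open Classical in
noncomputable def e (y : Y) (k : I ⊕ (I × G) ⊕ G) : Bool := decide (y ∈ test k)

noncomputable instance : TopologicalSpace Y := .induced e inferInstance

lemma e_ind : IsInducing e := ⟨rfl⟩

lemma mem_box {P Q i t} : pt i t ∈ box P Q ↔ i ∈ P ∧ t ∈ Q :=
  (Option.some_injective _).mem_set_image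

lemma none_box {P Q} : oo ∉ box P Q := by rintro ⟨_, -, h⟩; cases h

lemma none_test (k) : oo ∉ test k := by
  rcases k with i | q | γ <;> exact none_box

lemma test_clopen (k) : IsClopen (test k) := by
  have : test k = (fun y => e y k) ⁻¹' {true} := by ext y; simp [e]
  rw [this]
  exact (isClopen_discrete _).preimage ((continuous_apply k).comp e_ind.continuous)

lemma cont_to {Z : Type*} [TopologicalSpace Z] (f : Z → Y) (h : ∀ k, IsClopen (f ⁻¹' test k)) :
    Continuous f := by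
  classical
  refine e_ind.continuous_iff.2 (continuous_pi fun k => ?_)
  exact (continuous_boolIndicator_iff_isClopen _).2 (h k)

lemma e_inj : Function.Injective e := by
  intro y z h
  have h1 : ∀ k, y ∈ test k ↔ z ∈ test k := fun k => by simpa [e] using congrFun h k
  rcases y with _ | ⟨i, t⟩ <;> rcases z with _ | ⟨j, s⟩
  · rfl
  · exact absurd ((h1 (.inl j)).2 (mem_box.2 ⟨rfl, trivial⟩)) none_box
  · exact absurd ((h1 (.inl i)).1 (mem_box.2 ⟨rfl, trivial⟩)) none_box
  · obtain rfl : j = i := (mem_box.1 ((h1 (.inl i)).1 (mem_box.2 ⟨rfl, trivial⟩))).1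
    congr 2
    induction t using OnePoint.rec with
    | coe γ => exact (mem_box.1 ((h1 (.inr (.inl (j, γ)))).1 (mem_box.2 ⟨rfl, rfl⟩))).2.symm
    | infty =>
      induction s using OnePoint.rec with
      | coe γ => exact (mem_box.1 ((h1 (.inr (.inl (j, γ)))).2 (mem_box.2 ⟨rfl, rfl⟩))).2
      | infty => rfl

def f (x : J × OnePoint G) : Y := Option.map (fun i => (i, x.2)) x.1

lemma f_box (P Q) : f ⁻¹' box P Q = (some '' P : Set J) ×ˢ Q := by
  ext ⟨j, t⟩
  rcases j with _ | i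
  · exact ⟨fun h => absurd h none_box, by rintro ⟨⟨_, -, h⟩, -⟩; cases h⟩
  · exact mem_box.trans (and_congr (Option.some_injective _).mem_set_image.symm Iff.rfl)

lemma f_cont : Continuous f := by
  refine cont_to f fun k => ?_
  rcases k with i | q | γ <;> simp only [test, f_box]
  · exact (isClopen_discrete _).prod isClopen_univ
  · exact (isClopen_discrete _).prod (clopen_pt _)
  · exact (isClopen_discrete _).prod (clopen_pt _).compl

lemma tend (γ : G) : Tendsto (fun n => pt (b γ n) γ) atTop (𝓝 oo) := by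
  rw [e_ind.tendsto_nhds_iff, tendsto_pi_nhds]
  intro k
  have h1 : ∀ᶠ n in atTop, pt (b γ n) γ ∉ test k := by
    have h2 : ∀ i : I, ∀ᶠ n in atTop, b γ n ≠ i := fun i =>
      (eventually_gt_atTop i.1).mono fun n hn h => by
        have : n = i.1 := congrArg Prod.fst h
        omega
    rcases k with i | q | δ
    · exact (h2 i).mono fun n hn h => hn (mem_box.1 h).1
    · exact (h2 q.1).mono fun n hn h => hn (mem_box.1 h).1
    · by_cases h : γ = δ
      · exact Eventually.of_forall fun n h' => (mem_box.1 h').2 (h ▸ rfl)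
      · exact (ad h).mono fun n hn h => hn (mem_box.1 h).1
  refine tendsto_const_nhds.congr' (h1.mono fun n hn => ?_)
  simp [e, hn, none_test]

lemma not_assign : ¬ ∃ r N, Assign (X := Y) r N := by
  rintro ⟨r, N, h⟩
  have : T1Space Y := (IsEmbedding.mk e_ind e_inj).t1Space
  obtain ⟨h1, -, h2, h3, h4⟩ := h (insert {oo} (range (fun i => box {i} univ) ∪
    range fun i => {pt i OnePoint.infty})) ⟨((countable_range _).union
      (countable_range _)).insert _, by
    rintro _ (rfl | ⟨i, rfl⟩ | ⟨i, rfl⟩)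
    · exact isClosed_singleton
    · exact (test_clopen (.inl i)).1
    · exact isClosed_singleton⟩
  set ρ := r _
  have a0 : ρ oo = oo := h4 _ (Or.inl rfl) rfl
  have a1 : ∀ i, ρ (pt i OnePoint.infty) = pt i OnePoint.infty :=
    fun i => h4 _ (Or.inr (Or.inr ⟨i, rfl⟩)) rfl
  have a2 : ∀ i t, ρ (pt i t) ∈ box {i} univ :=
    fun i t => h4 _ (Or.inr (Or.inl ⟨i, rfl⟩)) (mem_box.2 ⟨rfl, trivial⟩)
  have sg : ∀ (i : I) (δ : G), test (.inr (.inl (i, δ))) = {pt i δ} := by
    intro i δ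
    simp only [test, box, singleton_prod_singleton]
    exact image_singleton
  have a3 : ∀ i : I, {δ : G | pt i δ ∈ range ρ}.Countable := by
    intro i
    refine (h2.preimage_of_injOn (f := fun δ : G => ({pt i δ} : Set Y))
      fun δ _ δ' _ h => ?_).mono fun δ hδ => ?_
    · exact OnePoint.coe_injective (pt_inj (singleton_injective h)).2
    · obtain ⟨S, s1, s2, s3⟩ := h3 _ hδ {pt i δ}
        (sg i δ ▸ (test_clopen (.inr (.inl (i, δ)))).2) rfl
      have : S = {pt i δ} := Subset.antisymm s3 (singleton_subset_iff.2 s2)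
      rw [this] at s1
      exact s1
  have a4 : (⋃ i : I, ⋃ δ ∈ {δ : G | pt i δ ∈ range ρ},
      {γ : G | ρ (pt i γ) = pt i δ}).Countable := by
    refine countable_iUnion fun i => (a3 i).biUnion fun δ _ => Finite.countable ?_
    have c : Continuous fun t : OnePoint G => ρ (pt i t) :=
      h1.comp (f_cont.comp (Continuous.prodMk_right (jj i)))
    refine fin_of (isClosed_singleton.preimage c) fun h => ?_
    exact OnePoint.infty_ne_coe δ (pt_inj ((a1 i).symm.trans h)).2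
  have unc : ¬ (univ : Set G).Countable := by
    rw [countable_univ_iff, not_countable_iff]
    refine Cardinal.aleph0_lt_mk_iff.1 ?_
    show Cardinal.aleph0 < Cardinal.mk (ℕ → Bool)
    simpa using Cardinal.aleph0_lt_continuum
  obtain ⟨γ, hγ⟩ := (ne_univ_iff_exists_notMem _).1 fun h => unc (h ▸ a4)
  have a5 : ∀ i, ρ (pt i γ) = pt i OnePoint.infty := by
    intro i
    obtain ⟨⟨j, t⟩, ⟨rfl, -⟩, h5⟩ := a2 i γ
    induction t using OnePoint.rec with
    | infty => exact h5.symm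
    | coe δ => exact absurd (mem_iUnion.2 ⟨j, mem_iUnion₂.2 ⟨δ, ⟨_, h5.symm⟩, h5.symm⟩⟩) hγ
  have a6 := (h1.tendsto _).comp (tend γ)
  simp only [Function.comp_def, a5, a0] at a6
  exact none_test _ ((test_clopen (.inr (.inr γ))).1.mem_of_tendsto a6
    (Eventually.of_forall fun n => mem_box.2 ⟨⟨n, rfl⟩, OnePoint.infty_ne_coe γ⟩))

theorem result : ∃ (X Y : Type) (_ : TopologicalSpace X) (_ : TopologicalSpace Y) (f : X → Y),
    T35Space X ∧ T35Space Y ∧ Continuous f ∧ Function.Surjective f ∧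
    MonSokolov X ∧ OmegaMonSokolov X ∧ ¬ MonSokolov Y ∧ ¬ ∃ r N, Assign (X := Y) r N := by
  refine ⟨J × OnePoint G, Y, inferInstance, inferInstance, f, inferInstance,
    (IsEmbedding.mk e_ind e_inj).t35Space, f_cont, ?_, ?_, sok,
    fun ⟨r, N, h, _⟩ => not_assign ⟨r, N, h⟩, not_assign⟩
  · rintro (_ | ⟨i, t⟩)
    · exact ⟨((none : Option I), OnePoint.infty), rfl⟩
    · exact ⟨((some i : Option I), t), rfl⟩
  · obtain ⟨r, N, h1, h2, -⟩ := sok
    exact ⟨r, N, h1, h2⟩

end Pool.Agent.Results.MP_a45b15_gt.Neg
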